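import Pool.Agent.Lib.MP_63e749_al.Final

/-!
# Vertex stabilisers of `2`-connected `G`-CW-complexes need not be finitely presented

Let `Q` be the alternating group `A_5`, let `L` be a finite flag complex with perfect and
nontrivial fundamental group (built from `Q`), let `G` be the right angled Artin group of `L` and
`H` the kernel of the height homomorphism `G → ℤ`, which is finitely generated but not finitely
presented. Let `D` be the (flag) complex of the cosets of the subgroups generated by the nonempty
cliques of `L`, and let `X` be the join of `D` with the discrete `G`-set `G / H ∪ {point}`. Then
`X` is `2`-connected, `G` acts cocompactly, all cells of positive dimension have finitely presented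
stabilisers, and the vertices in `G / H` have stabiliser `H`.

The definitions used in the statement are in `Pool.Agent.Lib.MP_63e749_al.Defs`.
-/

set_option autoImplicit false

open Topology Set
open scoped Topology Pointwise

namespace Pool.Agent.Results.MP_63e749_al.NegativeAnswer

open Pool.Agent.GCW

/-- There are a group `G` and a `G`-CW-complex `X` such that `X` is `2`-connected, the quotient of
the `3`-skeleton by `G` is compact, stabilisers of `2`-cells are finitely generated, stabilisers
of `1`-cells are finitely presented, `G` is finitely presented, and the stabiliser of some
`0`-cell is not finitely presented. -/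
theorem result : ∃ (G : Type) (_ : Group G) (X : Type) (_ : TopologicalSpace X) (_ : T2Space X)
    (_ : CWComplex (univ : Set X)) (_ : MulAction G X),
    IsGCW G X ∧ TwoConnected X ∧ SkelCocompact G X 3 ∧
    (∀ e : Cell X 2, Group.FG (cellStab G e)) ∧
    (∀ e : Cell X 1, Group.IsFinitelyPresented (cellStab G e)) ∧
    Group.IsFinitelyPresented G ∧
    ∃ e : Cell X 0, ¬ Group.IsFinitelyPresented (cellStab G e) :=
  Pool.Agent.GCW.main

end Pool.Agent.Results.MP_63e749_al.NegativeAnswer
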